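import Pool.Agent.Lib.MP_79314c_pr.Main

open MeasureTheory Pool.Agent.Lib.MP_79314c_pr
open scoped NNReal

/-- First-passage percolation on the square lattice with i.i.d. edge weights of law `F`:
there is a law `F` (absolutely continuous, carried by `[1, ∞)`, with all exponential moments
finite) such that for every odd `n` the passage time from the origin to `(n, 0)` is not
stochastically dominated by the passage time from the origin to `(n + 1, 0)`. -/
theorem Pool.Agent.Results.MP_79314c_pr.NotMonotone.result :
    ∃ (F : Measure ℝ≥0) (_ : IsProbabilityMeasure F),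
      F.map (fun z : ℝ≥0 => (z : ℝ)) ≪ volume ∧ (∀ᵐ z ∂F, 1 ≤ z) ∧
      (∀ s : ℝ, Integrable (fun z : ℝ≥0 => Real.exp (s * z)) F) ∧
      ∀ n : ℕ, Odd n → ∃ t : ℝ,
        (Measure.infinitePi fun _ : grid.edgeSet => F)
            {τ | t < passageTime τ (0, 0) ((n : ℤ) + 1, 0)} <
          (Measure.infinitePi fun _ : grid.edgeSet => F)
            {τ | t < passageTime τ (0, 0) ((n : ℤ), 0)} :=
  main
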