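import Pool.Agent.Lib.FP.Main

open MeasureTheory Pool.Agent.Lib.FP Pool.Agent.Lib.MP_81a99a_pr
open scoped NNReal

/-- First-passage percolation on `ℤ^d`, `d ≥ 3`, with i.i.d. edge weights: there is a law `F` with
the three atoms `0, 1, 2` such that for infinitely many `n` the passage time from the origin to
`(n + 1) eᵢ` exceeds `1` with smaller probability than the passage time to `n eᵢ`. -/
theorem Pool.Agent.Results.MP_79314c_pr.ThreeAtoms.result (d : ℕ) (hd : 3 ≤ d) (i : Fin d) :
    ∃ (p ε η : ℝ≥0) (F : Measure ℝ≥0) (_ : IsProbabilityMeasure F), 0 < p ∧ 0 < ε ∧ 0 < η ∧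
      F = p • Measure.dirac 0 + ε • Measure.dirac 1 + η • Measure.dirac 2 ∧
      ∀ N : ℕ, ∃ n : ℕ, N ≤ n ∧
        (Measure.infinitePi fun _ : (lattice d).edgeSet => F)
            {τ | 1 < passageTime τ 0 (Pi.single i ((n : ℤ) + 1))} <
          (Measure.infinitePi fun _ : (lattice d).edgeSet => F)
            {τ | 1 < passageTime τ 0 (Pi.single i (n : ℤ))} :=
  main hd i
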